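import Mathlib

set_option linter.unusedSimpArgs false

namespace Pool.Agent.Q250.NR

open ContinuousLinearMap

variable {H : Type*} [NormedAddCommGroup H] [InnerProductSpace ℂ H] [CompleteSpace H]

/-- Two doubly commuting isometries. -/
structure ShiftPair (Z W : H →L[ℂ] H) : Prop where
  hZ : star Z * Z = 1
  hW : star W * W = 1
  hc : W * Z = Z * W
  hd : star Z * W = W * star Z

namespace ShiftPair

variable {Z W : H →L[ℂ] H}

theorem hc' (h : ShiftPair Z W) : star W * star Z = star Z * star W := by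
  have := congrArg star h.hc
  simpa [star_mul] using this.symm

theorem hd' (h : ShiftPair Z W) : star W * Z = Z * star W := by
  have := congrArg star h.hd
  simpa [star_mul] using this

theorem hZa (h : ShiftPair Z W) (x : H →L[ℂ] H) : star Z * (Z * x) = x := by
  rw [← mul_assoc, h.hZ, one_mul]
theorem hWa (h : ShiftPair Z W) (x : H →L[ℂ] H) : star W * (W * x) = x := by
  rw [← mul_assoc, h.hW, one_mul]
theorem hca (h : ShiftPair Z W) (x : H →L[ℂ] H) : W * (Z * x) = Z * (W * x) := by
  rw [← mul_assoc, h.hc, mul_assoc]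
theorem hda (h : ShiftPair Z W) (x : H →L[ℂ] H) : star Z * (W * x) = W * (star Z * x) := by
  rw [← mul_assoc, h.hd, mul_assoc]
theorem hca' (h : ShiftPair Z W) (x : H →L[ℂ] H) :
    star W * (star Z * x) = star Z * (star W * x) := by
  rw [← mul_assoc, h.hc', mul_assoc]
theorem hda' (h : ShiftPair Z W) (x : H →L[ℂ] H) : star W * (Z * x) = Z * (star W * x) := by
  rw [← mul_assoc, h.hd', mul_assoc]

end ShiftPair

/-- `P = 5 + 2zw - 2z^2 w`. -/
noncomputable def P (Z W : H →L[ℂ] H) : H →L[ℂ] H :=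
  (5 : ℂ) • 1 + (2 : ℂ) • (Z * W) - (2 : ℂ) • (Z * (Z * W))
/-- The reflection `5z^2 w + 2z - 2`. -/
noncomputable def Pt (Z W : H →L[ℂ] H) : H →L[ℂ] H :=
  (5 : ℂ) • (Z * (Z * W)) + (2 : ℂ) • Z - (2 : ℂ) • 1

noncomputable def a1 (Z W : H →L[ℂ] H) : H →L[ℂ] H := 1 + (2 : ℂ) • (Z * W)
noncomputable def a2 (Z W : H →L[ℂ] H) : H →L[ℂ] H := (4 : ℂ) • W + Z * W
noncomputable def a0 (Z : H →L[ℂ] H) : H →L[ℂ] H := (4 : ℂ) • 1 + Z

variable {Z W : H →L[ℂ] H}


theorem I1 (h : ShiftPair Z W) : star (Pt Z W) * Pt Z W = star (P Z W) * P Z W := by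
  unfold P Pt
  (simp only [star_add, star_sub, star_mul, star_smul, star_one, star_star, mul_add, add_mul, mul_sub, sub_mul, mul_assoc, smul_mul_assoc, mul_smul_comm, mul_one, one_mul, ShiftPair.hZ h, ShiftPair.hW h, ShiftPair.hc h, ShiftPair.hd h, ShiftPair.hc' h, ShiftPair.hd' h, ShiftPair.hZa h, ShiftPair.hWa h, ShiftPair.hca h, ShiftPair.hda h, ShiftPair.hca' h, ShiftPair.hda' h, Complex.star_def, map_ofNat]; try module)

theorem I2 (h : ShiftPair Z W) : P Z W * star (P Z W) - Pt Z W * star (Pt Z W)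
    = a0 Z * (1 - W * star W) * star (a0 Z)
      + (5 : ℂ) • (a1 Z W * (1 - Z * star Z) * star (a1 Z W))
      + a2 Z W * (1 - Z * star Z) * star (a2 Z W) := by
  unfold P Pt a1 a2 a0
  (simp only [star_add, star_sub, star_mul, star_smul, star_one, star_star, mul_add, add_mul, mul_sub, sub_mul, mul_assoc, smul_mul_assoc, mul_smul_comm, mul_one, one_mul, ShiftPair.hZ h, ShiftPair.hW h, ShiftPair.hc h, ShiftPair.hd h, ShiftPair.hc' h, ShiftPair.hd' h, ShiftPair.hZa h, ShiftPair.hWa h, ShiftPair.hca h, ShiftPair.hda h, ShiftPair.hca' h, ShiftPair.hda' h, Complex.star_def, map_ofNat]; try module)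


theorem norm_le_one_of_isom {Z : H →L[ℂ] H} (hZ : star Z * Z = 1) : ‖Z‖ ≤ 1 := by
  have h1 : ‖star Z * Z‖ = ‖Z‖ * ‖Z‖ := CStarRing.norm_star_mul_self
  rw [hZ] at h1
  have h2 : ‖(1 : H →L[ℂ] H)‖ ≤ 1 := ContinuousLinearMap.norm_id_le
  nlinarith [norm_nonneg Z]

theorem exists_R (h : ShiftPair Z W) : ∃ R : H →L[ℂ] H, P Z W * R = 1 ∧ R * P Z W = 1 := by
  have hz := norm_le_one_of_isom h.hZ
  have hw := norm_le_one_of_isom h.hW
  set t : H →L[ℂ] H := (-(2/5) : ℂ) • (Z * W) + (2/5 : ℂ) • (Z * (Z * W)) with ht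
  have hzw : ‖Z * W‖ ≤ 1 := by
    calc ‖Z * W‖ ≤ ‖Z‖ * ‖W‖ := norm_mul_le _ _
      _ ≤ 1 * 1 := by gcongr
      _ = 1 := by ring
  have hzzw : ‖Z * (Z * W)‖ ≤ 1 := by
    calc ‖Z * (Z * W)‖ ≤ ‖Z‖ * ‖Z * W‖ := norm_mul_le _ _
      _ ≤ 1 * 1 := by gcongr
      _ = 1 := by ring
  have htn : ‖t‖ < 1 := by
    calc ‖t‖ ≤ ‖(-(2/5) : ℂ) • (Z * W)‖ + ‖(2/5 : ℂ) • (Z * (Z * W))‖ := norm_add_le _ _
      _ = (2/5) * ‖Z * W‖ + (2/5) * ‖Z * (Z * W)‖ := by
          rw [norm_smul, norm_smul]; norm_num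
      _ ≤ (2/5) * 1 + (2/5) * 1 := by gcongr
      _ < 1 := by norm_num
  have hP : P Z W = (5 : ℂ) • (1 - t) := by
    unfold P; rw [ht]; module
  let u := Units.oneSub t htn
  have hu : (u : H →L[ℂ] H) = 1 - t := Units.val_oneSub t htn
  refine ⟨(1/5 : ℂ) • ((u⁻¹ : (H →L[ℂ] H)ˣ) : H →L[ℂ] H), ?_, ?_⟩
  · rw [hP, ← hu, smul_mul_smul_comm]
    simp
  · rw [hP, ← hu, smul_mul_smul_comm]
    simp

/-- data: the shift pair with an inverse `R` of `P`. -/
structure Dat (Z W R : H →L[ℂ] H) : Prop extends ShiftPair Z W where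
  PR : P Z W * R = 1
  RP : R * P Z W = 1

namespace Dat

variable {R : H →L[ℂ] H}

theorem comm_of (d : Dat Z W R) {X : H →L[ℂ] H} (hX : X * P Z W = P Z W * X) :
    R * X = X * R := by
  calc R * X = R * X * (P Z W * R) := by rw [d.PR, mul_one]
    _ = R * (X * P Z W) * R := by simp only [mul_assoc]
    _ = R * (P Z W * X) * R := by rw [hX]
    _ = (R * P Z W) * X * R := by simp only [mul_assoc]
    _ = X * R := by rw [d.RP, one_mul]

theorem RZ (d : Dat Z W R) : R * Z = Z * R := by
  apply d.comm_of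
  have h := d.toShiftPair
  unfold P
  (simp only [star_add, star_sub, star_mul, star_smul, star_one, star_star, mul_add, add_mul, mul_sub, sub_mul, mul_assoc, smul_mul_assoc, mul_smul_comm, mul_one, one_mul, ShiftPair.hZ h, ShiftPair.hW h, ShiftPair.hc h, ShiftPair.hd h, ShiftPair.hc' h, ShiftPair.hd' h, ShiftPair.hZa h, ShiftPair.hWa h, ShiftPair.hca h, ShiftPair.hda h, ShiftPair.hca' h, ShiftPair.hda' h, Complex.star_def, map_ofNat]; try module)

theorem RW (d : Dat Z W R) : R * W = W * R := by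
  apply d.comm_of
  have h := d.toShiftPair
  unfold P
  (simp only [star_add, star_sub, star_mul, star_smul, star_one, star_star, mul_add, add_mul, mul_sub, sub_mul, mul_assoc, smul_mul_assoc, mul_smul_comm, mul_one, one_mul, ShiftPair.hZ h, ShiftPair.hW h, ShiftPair.hc h, ShiftPair.hd h, ShiftPair.hc' h, ShiftPair.hd' h, ShiftPair.hZa h, ShiftPair.hWa h, ShiftPair.hca h, ShiftPair.hda h, ShiftPair.hca' h, ShiftPair.hda' h, Complex.star_def, map_ofNat]; try module)

theorem RPt (d : Dat Z W R) : R * Pt Z W = Pt Z W * R := by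
  apply d.comm_of
  have h := d.toShiftPair
  unfold P Pt
  (simp only [star_add, star_sub, star_mul, star_smul, star_one, star_star, mul_add, add_mul, mul_sub, sub_mul, mul_assoc, smul_mul_assoc, mul_smul_comm, mul_one, one_mul, ShiftPair.hZ h, ShiftPair.hW h, ShiftPair.hc h, ShiftPair.hd h, ShiftPair.hc' h, ShiftPair.hd' h, ShiftPair.hZa h, ShiftPair.hWa h, ShiftPair.hca h, ShiftPair.hda h, ShiftPair.hca' h, ShiftPair.hda' h, Complex.star_def, map_ofNat]; try module)

theorem ZR' (d : Dat Z W R) : star Z * star R = star R * star Z := by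
  have := congrArg star d.RZ
  simpa [star_mul] using this

theorem WR' (d : Dat Z W R) : star W * star R = star R * star W := by
  have := congrArg star d.RW
  simpa [star_mul] using this

/-- the multiplication operator by `θ`. -/
noncomputable def Th (Z W R : H →L[ℂ] H) : H →L[ℂ] H := Pt Z W * R

theorem ThTh (d : Dat Z W R) : star (Th Z W R) * Th Z W R = 1 := by
  have h := I1 d.toShiftPair
  unfold Th
  calc star (Pt Z W * R) * (Pt Z W * R) = star R * (star (Pt Z W) * Pt Z W) * R := by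
        rw [star_mul]; simp only [mul_assoc]
    _ = star R * (star (P Z W) * P Z W) * R := by rw [h]
    _ = star (P Z W * R) * (P Z W * R) := by rw [star_mul]; simp only [mul_assoc]
    _ = 1 := by rw [d.PR]; simp

/-- `1 - W W^*`. -/
noncomputable def E (Z : H →L[ℂ] H) : H →L[ℂ] H := 1 - Z * star Z

theorem E_star : star (E Z) = E Z := by
  unfold E; simp [star_sub, star_mul]

theorem EZ_idem (d : Dat Z W R) : E Z * E Z = E Z := by
  have h := d.toShiftPair
  unfold E
  (simp only [star_add, star_sub, star_mul, star_smul, star_one, star_star, mul_add, add_mul, mul_sub, sub_mul, mul_assoc, smul_mul_assoc, mul_smul_comm, mul_one, one_mul, ShiftPair.hZ h, ShiftPair.hW h, ShiftPair.hc h, ShiftPair.hd h, ShiftPair.hc' h, ShiftPair.hd' h, ShiftPair.hZa h, ShiftPair.hWa h, ShiftPair.hca h, ShiftPair.hda h, ShiftPair.hca' h, ShiftPair.hda' h, Complex.star_def, map_ofNat]; try module)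

theorem EW_idem (d : Dat Z W R) : E W * E W = E W := by
  have h := d.toShiftPair
  unfold E
  (simp only [star_add, star_sub, star_mul, star_smul, star_one, star_star, mul_add, add_mul, mul_sub, sub_mul, mul_assoc, smul_mul_assoc, mul_smul_comm, mul_one, one_mul, ShiftPair.hZ h, ShiftPair.hW h, ShiftPair.hc h, ShiftPair.hd h, ShiftPair.hc' h, ShiftPair.hd' h, ShiftPair.hZa h, ShiftPair.hWa h, ShiftPair.hca h, ShiftPair.hda h, ShiftPair.hca' h, ShiftPair.hda' h, Complex.star_def, map_ofNat]; try module)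

noncomputable def A1 (Z W R : H →L[ℂ] H) : H →L[ℂ] H := R * (a0 Z * E W)
noncomputable def C1 (Z W R : H →L[ℂ] H) : H →L[ℂ] H := R * (a1 Z W * E Z)
noncomputable def C2 (Z W R : H →L[ℂ] H) : H →L[ℂ] H := R * (a2 Z W * E Z)
noncomputable def Q (Z W R : H →L[ℂ] H) : H →L[ℂ] H := A1 Z W R * star (A1 Z W R)
noncomputable def G (Z W R : H →L[ℂ] H) : H →L[ℂ] H :=
  (5 : ℂ) • (C1 Z W R * star (C1 Z W R)) + C2 Z W R * star (C2 Z W R)

theorem main_id (d : Dat Z W R) : 1 - Th Z W R * star (Th Z W R) = Q Z W R + G Z W R := by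
  have h := I2 d.toShiftPair
  have hR' : star (P Z W) * star R = 1 := by
    rw [← star_mul, d.RP]; simp
  have e1 : R * (P Z W * star (P Z W)) * star R = 1 := by
    calc R * (P Z W * star (P Z W)) * star R = (R * P Z W) * (star (P Z W) * star R) := by
          simp only [mul_assoc]
      _ = 1 := by rw [d.RP, hR', one_mul]
  have e2 : R * (Pt Z W * star (Pt Z W)) * star R = Th Z W R * star (Th Z W R) := by
    unfold Th
    rw [← d.RPt, star_mul]; simp only [mul_assoc]
  have e3 : A1 Z W R * star (A1 Z W R) = R * (a0 Z * E W * star (a0 Z)) * star R := by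
    unfold A1
    simp only [star_mul, E_star]
    calc R * (a0 Z * E W) * (E W * star (a0 Z) * star R)
        = R * (a0 Z * (E W * E W) * star (a0 Z)) * star R := by simp only [mul_assoc]
      _ = _ := by rw [d.EW_idem]
  have e4 : C1 Z W R * star (C1 Z W R) = R * (a1 Z W * E Z * star (a1 Z W)) * star R := by
    unfold C1
    simp only [star_mul, E_star]
    calc R * (a1 Z W * E Z) * (E Z * star (a1 Z W) * star R)
        = R * (a1 Z W * (E Z * E Z) * star (a1 Z W)) * star R := by simp only [mul_assoc]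
      _ = _ := by rw [d.EZ_idem]
  have e5 : C2 Z W R * star (C2 Z W R) = R * (a2 Z W * E Z * star (a2 Z W)) * star R := by
    unfold C2
    simp only [star_mul, E_star]
    calc R * (a2 Z W * E Z) * (E Z * star (a2 Z W) * star R)
        = R * (a2 Z W * (E Z * E Z) * star (a2 Z W)) * star R := by simp only [mul_assoc]
      _ = _ := by rw [d.EZ_idem]
  unfold Q G
  rw [e3, e4, e5, ← e2, ← e1]
  calc R * (P Z W * star (P Z W)) * star R - R * (Pt Z W * star (Pt Z W)) * star R
      = R * (P Z W * star (P Z W) - Pt Z W * star (Pt Z W)) * star R := by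
        simp only [mul_sub, sub_mul]
    _ = R * (a0 Z * (1 - W * star W) * star (a0 Z)
      + (5 : ℂ) • (a1 Z W * (1 - Z * star Z) * star (a1 Z W))
      + a2 Z W * (1 - Z * star Z) * star (a2 Z W)) * star R := by rw [h]
    _ = _ := by
      unfold E
      simp only [mul_add, add_mul, smul_mul_assoc, mul_smul_comm]
      abel

theorem A1_isom (d : Dat Z W R) : star (A1 Z W R) * A1 Z W R = E W := by
  have h := d.toShiftPair
  -- `5 R = 1 - W b R`
  have h5 : (5 : ℂ) • R = 1 - W * (((2 : ℂ) • Z - (2 : ℂ) • (Z * Z)) * R) := by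
    have h1 : P Z W = (5 : ℂ) • 1 + W * ((2 : ℂ) • Z - (2 : ℂ) • (Z * Z)) := by
      unfold P
      (simp only [star_add, star_sub, star_mul, star_smul, star_one, star_star, mul_add, add_mul, mul_sub, sub_mul, mul_assoc, smul_mul_assoc, mul_smul_comm, mul_one, one_mul, ShiftPair.hZ h, ShiftPair.hW h, ShiftPair.hc h, ShiftPair.hd h, ShiftPair.hc' h, ShiftPair.hd' h, ShiftPair.hZa h, ShiftPair.hWa h, ShiftPair.hca h, ShiftPair.hda h, ShiftPair.hca' h, ShiftPair.hda' h, Complex.star_def, map_ofNat]; try module)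
    have h2 := d.PR
    rw [h1, add_mul, smul_mul_assoc, one_mul] at h2
    rw [eq_sub_iff_add_eq, ← h2]
    simp only [mul_assoc]
  set b : H →L[ℂ] H := (2 : ℂ) • Z - (2 : ℂ) • (Z * Z) with hb
  have hWE : star W * E W = 0 := by unfold E; (simp only [star_add, star_sub, star_mul, star_smul, star_one, star_star, mul_add, add_mul, mul_sub, sub_mul, mul_assoc, smul_mul_assoc, mul_smul_comm, mul_one, one_mul, ShiftPair.hZ h, ShiftPair.hW h, ShiftPair.hc h, ShiftPair.hd h, ShiftPair.hc' h, ShiftPair.hd' h, ShiftPair.hZa h, ShiftPair.hWa h, ShiftPair.hca h, ShiftPair.hda h, ShiftPair.hca' h, ShiftPair.hda' h, Complex.star_def, map_ofNat]; try module)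
  have hEW : E W * W = 0 := by unfold E; (simp only [star_add, star_sub, star_mul, star_smul, star_one, star_star, mul_add, add_mul, mul_sub, sub_mul, mul_assoc, smul_mul_assoc, mul_smul_comm, mul_one, one_mul, ShiftPair.hZ h, ShiftPair.hW h, ShiftPair.hc h, ShiftPair.hd h, ShiftPair.hc' h, ShiftPair.hd' h, ShiftPair.hZa h, ShiftPair.hWa h, ShiftPair.hca h, ShiftPair.hda h, ShiftPair.hca' h, ShiftPair.hda' h, Complex.star_def, map_ofNat]; try module)
  have h6 : star R * R = (1/25 : ℂ) • (star ((5 : ℂ) • R) * ((5 : ℂ) • R)) := by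
    simp only [star_smul, Complex.star_def, map_ofNat, smul_mul_smul_comm, smul_smul]
    norm_num
  have h7 : E W * (star R * R) * E W
      = (1/25 : ℂ) • (E W * E W + E W * (star R * (star b * b) * R) * E W) := by
    rw [h6, h5]
    have e1 : star (1 - W * (b * R)) * (1 - W * (b * R))
        = 1 - W * (b * R) - star R * (star b * star W) + star R * (star b * b) * R := by
      simp only [star_sub, star_one, star_mul, mul_sub, sub_mul, mul_one, one_mul]
      have : star R * star b * star W * (W * (b * R)) = star R * (star b * b) * R := by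
        simp only [mul_assoc, h.hWa]
      rw [this]
      simp only [mul_assoc]
      abel
    rw [e1]
    simp only [mul_smul_comm, smul_mul_assoc]
    congr 1
    simp only [mul_add, mul_sub, add_mul, sub_mul, mul_one]
    have e2 : E W * (W * (b * R)) * E W = 0 := by
      rw [← mul_assoc (E W), hEW]; simp
    have e3 : E W * (star R * (star b * star W)) * E W = 0 := by
      simp only [mul_assoc, hWE, mul_zero]
    rw [e2, e3]
    abel
  have hbb : star b * b = (8 : ℂ) • 1 - (4 : ℂ) • Z - (4 : ℂ) • star Z := by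
    rw [hb]; (simp only [star_add, star_sub, star_mul, star_smul, star_one, star_star, mul_add, add_mul, mul_sub, sub_mul, mul_assoc, smul_mul_assoc, mul_smul_comm, mul_one, one_mul, ShiftPair.hZ h, ShiftPair.hW h, ShiftPair.hc h, ShiftPair.hd h, ShiftPair.hc' h, ShiftPair.hd' h, ShiftPair.hZa h, ShiftPair.hWa h, ShiftPair.hca h, ShiftPair.hda h, ShiftPair.hca' h, ShiftPair.hda' h, Complex.star_def, map_ofNat]; try module)
  have h00 : star (a0 Z) * a0 Z = (17 : ℂ) • 1 + (4 : ℂ) • Z + (4 : ℂ) • star Z := by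
    unfold a0; (simp only [star_add, star_sub, star_mul, star_smul, star_one, star_star, mul_add, add_mul, mul_sub, sub_mul, mul_assoc, smul_mul_assoc, mul_smul_comm, mul_one, one_mul, ShiftPair.hZ h, ShiftPair.hW h, ShiftPair.hc h, ShiftPair.hd h, ShiftPair.hc' h, ShiftPair.hd' h, ShiftPair.hZa h, ShiftPair.hWa h, ShiftPair.hca h, ShiftPair.hda h, ShiftPair.hca' h, ShiftPair.hda' h, Complex.star_def, map_ofNat]; try module)
  have haR : R * a0 Z = a0 Z * R := by
    unfold a0
    simp only [mul_add, add_mul, mul_smul_comm, smul_mul_assoc, mul_one, one_mul, d.RZ]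
  have h8 : star (A1 Z W R) * A1 Z W R
      = E W * (star R * (star (a0 Z) * a0 Z) * R) * E W := by
    have e0 : R * (a0 Z * E W) = a0 Z * R * E W := by rw [← mul_assoc, haR]
    unfold A1
    rw [e0]
    simp only [star_mul, E_star, mul_assoc]
  rw [h8, h00]
  rw [hbb, d.EW_idem] at h7
  set X := star R * R with hX
  have g1 : E W * (star R * ((17 : ℂ) • 1 + (4 : ℂ) • Z + (4 : ℂ) • star Z) * R) * E W
      = (17 : ℂ) • (E W * X * E W) + (4 : ℂ) • (E W * (star R * Z * R) * E W)
        + (4 : ℂ) • (E W * (star R * star Z * R) * E W) := by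
    rw [hX]
    simp only [mul_add, add_mul, mul_smul_comm, smul_mul_assoc, mul_one, mul_assoc]
  have g2 : E W * (star R * ((8 : ℂ) • 1 - (4 : ℂ) • Z - (4 : ℂ) • star Z) * R) * E W
      = (8 : ℂ) • (E W * X * E W) - (4 : ℂ) • (E W * (star R * Z * R) * E W)
        - (4 : ℂ) • (E W * (star R * star Z * R) * E W) := by
    rw [hX]
    simp only [mul_sub, sub_mul, mul_smul_comm, smul_mul_assoc, mul_one, mul_assoc]
  rw [g1]
  rw [g2] at h7
  have h9 : (25 : ℂ) • (E W * X * E W) = E W + ((8 : ℂ) • (E W * X * E W)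
        - (4 : ℂ) • (E W * (star R * Z * R) * E W)
        - (4 : ℂ) • (E W * (star R * star Z * R) * E W)) := by
    conv_lhs => rw [h7, smul_smul]
    norm_num
  have h10 : E W = (25 : ℂ) • (E W * X * E W) - ((8 : ℂ) • (E W * X * E W)
        - (4 : ℂ) • (E W * (star R * Z * R) * E W)
        - (4 : ℂ) • (E W * (star R * star Z * R) * E W)) := by
    rw [h9]; abel
  conv_rhs => rw [h10]
  module

end Dat

end Pool.Agent.Q250.NR
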