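import Pool.Agent.Q250.NR.Vec

set_option linter.unusedSimpArgs false
set_option linter.unusedSectionVars false

namespace Pool.Agent.Q250.NR

open ContinuousLinearMap
open scoped InnerProductSpace

/-- `H²(𝔻²)` as the space of square-summable coefficient families. -/
abbrev H2 : Type := lp (fun _ : ℕ × ℕ => ℂ) 2

section push

variable {ι : Type} (φ : ι → ι) (hφ : Function.Injective φ)

theorem memlp_two_iff (f : ι → ℂ) : Memℓp f 2 ↔ Summable fun i => ‖f i‖ ^ 2 := by
  rw [memℓp_gen_iff (by norm_num)]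
  simp

theorem norm_sq_eq (f : lp (fun _ : ι => ℂ) 2) : ‖f‖ ^ 2 = ∑' i, ‖f i‖ ^ 2 := by
  have := lp.norm_rpow_eq_tsum (p := 2) (by norm_num) f
  simpa using this

include hφ in
theorem push_mem (f : lp (fun _ : ι => ℂ) 2) : Memℓp (Function.extend φ (f : ι → ℂ) 0) 2 := by
  rw [memlp_two_iff]
  have h := (memlp_two_iff _).1 (lp.memℓp f)
  have e : (fun i => ‖Function.extend φ (f : ι → ℂ) 0 i‖ ^ 2)
      = Function.extend φ (fun i => ‖f i‖ ^ 2) 0 := by
    funext i
    by_cases hi : ∃ j, φ j = i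
    · obtain ⟨j, rfl⟩ := hi
      rw [hφ.extend_apply, hφ.extend_apply]
    · rw [Function.extend_apply' _ _ _ hi, Function.extend_apply' _ _ _ hi]; simp
  rw [e]
  exact (summable_extend_zero hφ).2 h

/-- push forward along an injective map, as a linear isometry. -/
noncomputable def push : lp (fun _ : ι => ℂ) 2 →ₗᵢ[ℂ] lp (fun _ : ι => ℂ) 2 where
  toFun f := ⟨Function.extend φ (f : ι → ℂ) 0, push_mem φ hφ f⟩
  map_add' f g := by
    ext i
    show Function.extend φ ((f : ι → ℂ) + (g : ι → ℂ)) 0 i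
      = Function.extend φ (f : ι → ℂ) 0 i + Function.extend φ (g : ι → ℂ) 0 i
    by_cases hi : ∃ j, φ j = i
    · obtain ⟨j, rfl⟩ := hi
      simp [hφ.extend_apply]
    · simp [Function.extend_apply' _ _ _ hi]
  map_smul' c f := by
    ext i
    by_cases hi : ∃ j, φ j = i
    · obtain ⟨j, rfl⟩ := hi
      simp [hφ.extend_apply]
    · simp [Function.extend_apply' _ _ _ hi]
  norm_map' f := by
    have h1 : ‖(⟨Function.extend φ (f : ι → ℂ) 0, push_mem φ hφ f⟩ : lp (fun _ : ι => ℂ) 2)‖ ^ 2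
        = ‖f‖ ^ 2 := by
      rw [norm_sq_eq, norm_sq_eq]
      have e : (fun i => ‖Function.extend φ (f : ι → ℂ) 0 i‖ ^ 2)
          = Function.extend φ (fun i => ‖f i‖ ^ 2) 0 := by
        funext i
        by_cases hi : ∃ j, φ j = i
        · obtain ⟨j, rfl⟩ := hi
          rw [hφ.extend_apply, hφ.extend_apply]
        · rw [Function.extend_apply' _ _ _ hi, Function.extend_apply' _ _ _ hi]; simp
      have := tsum_extend_zero hφ (fun i => ‖f i‖ ^ 2)
      rw [← this, ← e]
    exact (pow_left_inj₀ (norm_nonneg _) (norm_nonneg _) two_ne_zero).1 h1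

theorem push_apply (f : lp (fun _ : ι => ℂ) 2) (j : ι) : (push φ hφ f) (φ j) = f j :=
  hφ.extend_apply _ _ _

theorem push_apply' (f : lp (fun _ : ι => ℂ) 2) {i : ι} (hi : ¬ ∃ j, φ j = i) :
    (push φ hφ f) i = 0 := by
  show Function.extend φ (f : ι → ℂ) 0 i = 0
  rw [Function.extend_apply' _ _ _ hi]; rfl

noncomputable def pushL : lp (fun _ : ι => ℂ) 2 →L[ℂ] lp (fun _ : ι => ℂ) 2 :=
  (push φ hφ).toContinuousLinearMap

theorem pushL_apply (f : lp (fun _ : ι => ℂ) 2) (j : ι) : (pushL φ hφ f) (φ j) = f j :=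
  push_apply φ hφ f j

theorem pushL_apply' (f : lp (fun _ : ι => ℂ) 2) {i : ι} (hi : ¬ ∃ j, φ j = i) :
    (pushL φ hφ f) i = 0 := push_apply' φ hφ f hi

/-- the adjoint of the push-forward is composition. -/
theorem star_pushL_apply [DecidableEq ι] (f : lp (fun _ : ι => ℂ) 2) (j : ι) :
    ((star (pushL φ hφ)) f) j = f (φ j) := by
  have h1 : ⟪lp.single (E := fun _ : ι => ℂ) 2 j (1 : ℂ), (star (pushL φ hφ)) f⟫_ℂ
      = ((star (pushL φ hφ)) f) j := by
    rw [lp.inner_single_left]; simp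
  have h2 : ⟪lp.single (E := fun _ : ι => ℂ) 2 (φ j) (1 : ℂ), f⟫_ℂ = f (φ j) := by
    rw [lp.inner_single_left]; simp
  have h3 : pushL φ hφ (lp.single (E := fun _ : ι => ℂ) 2 j (1 : ℂ))
      = lp.single (E := fun _ : ι => ℂ) 2 (φ j) (1 : ℂ) := by
    ext i
    by_cases hi : ∃ k, φ k = i
    · obtain ⟨k, rfl⟩ := hi
      rw [pushL_apply]
      by_cases hk : k = j
      · subst hk; simp [lp.single_apply]
      · have : φ k ≠ φ j := fun h => hk (hφ h)
        simp [lp.single_apply, Pi.single_apply, hk, this]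
    · rw [pushL_apply' φ hφ _ hi]
      have : i ≠ φ j := fun h => hi ⟨j, h.symm⟩
      simp [lp.single_apply, Pi.single_apply, this]
  rw [← h1, inner_star, star_star, h3, h2]

end push

def up1 (p : ℕ × ℕ) : ℕ × ℕ := (p.1 + 1, p.2)
def up2 (p : ℕ × ℕ) : ℕ × ℕ := (p.1, p.2 + 1)

theorem up1_inj : Function.Injective up1 := by
  rintro ⟨a, b⟩ ⟨c, d⟩ h; simp [up1] at h; simp [h]
theorem up2_inj : Function.Injective up2 := by
  rintro ⟨a, b⟩ ⟨c, d⟩ h; simp [up2] at h; simp [h]

/-- multiplication by `z₁` -/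
noncomputable def S1 : H2 →L[ℂ] H2 := pushL up1 up1_inj
/-- multiplication by `z₂` -/
noncomputable def S2 : H2 →L[ℂ] H2 := pushL up2 up2_inj

theorem S1_succ (f : H2) (k l : ℕ) : (S1 f) (k + 1, l) = f (k, l) :=
  pushL_apply up1 up1_inj f (k, l)
theorem S1_zero (f : H2) (l : ℕ) : (S1 f) (0, l) = 0 :=
  pushL_apply' up1 up1_inj f (by rintro ⟨⟨a, b⟩, h⟩; simp [up1] at h)
theorem S2_succ (f : H2) (k l : ℕ) : (S2 f) (k, l + 1) = f (k, l) :=
  pushL_apply up2 up2_inj f (k, l)
theorem S2_zero (f : H2) (k : ℕ) : (S2 f) (k, 0) = 0 :=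
  pushL_apply' up2 up2_inj f (by rintro ⟨⟨a, b⟩, h⟩; simp [up2] at h)

theorem S1s (f : H2) (k l : ℕ) : ((star S1) f) (k, l) = f (k + 1, l) :=
  star_pushL_apply up1 up1_inj f (k, l)
theorem S2s (f : H2) (k l : ℕ) : ((star S2) f) (k, l) = f (k, l + 1) :=
  star_pushL_apply up2 up2_inj f (k, l)

theorem pair : ShiftPair S1 S2 where
  hZ := by
    ext f ⟨k, l⟩
    show ((star S1) (S1 f)) (k, l) = f (k, l)
    rw [S1s, S1_succ]
  hW := by
    ext f ⟨k, l⟩
    show ((star S2) (S2 f)) (k, l) = f (k, l)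
    rw [S2s, S2_succ]
  hc := by
    ext f ⟨k, l⟩
    show (S2 (S1 f)) (k, l) = (S1 (S2 f)) (k, l)
    cases k <;> cases l <;> simp [S1_succ, S1_zero, S2_succ, S2_zero]
  hd := by
    ext f ⟨k, l⟩
    show ((star S1) (S2 f)) (k, l) = (S2 ((star S1) f)) (k, l)
    rw [S1s]
    cases l <;> simp [S1s, S2_succ, S2_zero]

/-- The holomorphic function on the bidisk with the given coefficients. -/
noncomputable def ev (f : H2) (z w : ℂ) : ℂ := ∑' p : ℕ × ℕ, f p * (z ^ p.1 * w ^ p.2)

theorem summ_geo {z w : ℂ} (hz : ‖z‖ < 1) (hw : ‖w‖ < 1) :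
    Summable fun p : ℕ × ℕ => ‖z‖ ^ p.1 * ‖w‖ ^ p.2 :=
  (summable_geometric_of_lt_one (norm_nonneg z) hz).mul_of_nonneg
    (summable_geometric_of_lt_one (norm_nonneg w) hw)
    (fun _ => by positivity) (fun _ => by positivity)

theorem ev_summable (f : H2) {z w : ℂ} (hz : ‖z‖ < 1) (hw : ‖w‖ < 1) :
    Summable fun p : ℕ × ℕ => f p * (z ^ p.1 * w ^ p.2) := by
  apply Summable.of_norm_bounded (g := fun p : ℕ × ℕ => ‖f‖ * (‖z‖ ^ p.1 * ‖w‖ ^ p.2))
  · exact (summ_geo hz hw).mul_left _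
  · intro p
    rw [norm_mul, norm_mul, norm_pow, norm_pow]
    gcongr
    exact lp.norm_apply_le_norm (by norm_num) f p

theorem ev_add (f g : H2) {z w : ℂ} (hz : ‖z‖ < 1) (hw : ‖w‖ < 1) :
    ev (f + g) z w = ev f z w + ev g z w := by
  unfold ev
  rw [← (ev_summable f hz hw).tsum_add (ev_summable g hz hw)]
  congr 1; ext p; simp [add_mul]

theorem ev_smul (c : ℂ) (f : H2) (z w : ℂ) : ev (c • f) z w = c * ev f z w := by
  unfold ev
  rw [← tsum_mul_left]
  congr 1; ext p; simp [mul_assoc]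

theorem ev_sub (f g : H2) {z w : ℂ} (hz : ‖z‖ < 1) (hw : ‖w‖ < 1) :
    ev (f - g) z w = ev f z w - ev g z w := by
  have : f - g = f + (-1 : ℂ) • g := by module
  rw [this, ev_add _ _ hz hw, ev_smul]; ring

theorem ev_S1 (f : H2) (z w : ℂ) : ev (S1 f) z w = z * ev f z w := by
  unfold ev
  rw [← tsum_mul_left, ← up1_inj.tsum_eq]
  · congr 1; ext p
    obtain ⟨k, l⟩ := p
    show (S1 f) (k + 1, l) * (z ^ (k + 1) * w ^ l) = _
    rw [S1_succ]; ring
  · intro p hp
    obtain ⟨k, l⟩ := p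
    rcases k with _ | k
    · simp [S1_zero] at hp
    · exact ⟨(k, l), rfl⟩

theorem ev_S2 (f : H2) (z w : ℂ) : ev (S2 f) z w = w * ev f z w := by
  unfold ev
  rw [← tsum_mul_left, ← up2_inj.tsum_eq]
  · congr 1; ext p
    obtain ⟨k, l⟩ := p
    show (S2 f) (k, l + 1) * (z ^ k * w ^ (l + 1)) = _
    rw [S2_succ]; ring
  · intro p hp
    obtain ⟨k, l⟩ := p
    rcases l with _ | l
    · simp [S2_zero] at hp
    · exact ⟨(k, l), rfl⟩

/-- one-variable identity theorem -/
theorem coeff_zero {c : ℕ → ℂ} {C : ℝ} (hC : ∀ k, ‖c k‖ ≤ C)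
    (h : ∀ z : ℂ, ‖z‖ < 1 → ∑' k, c k * z ^ k = 0) : ∀ k, c k = 0 := by
  intro k
  induction k using Nat.strong_induction_on with
  | _ k ih =>
    have hC0 : 0 ≤ C := le_trans (norm_nonneg _) (hC 0)
    have key : ∀ r : ℝ, 0 < r → r ≤ 1/2 → ‖c k‖ ≤ 2 * C * r := by
      intro r hr hr2
      have hz : ‖(r : ℂ)‖ < 1 := by
        rw [Complex.norm_real, Real.norm_of_nonneg hr.le]; linarith
      have h1 := h r hz
      have hs : Summable fun j => c j * (r : ℂ) ^ j := by
        apply Summable.of_norm_bounded (g := fun j => C * r ^ j)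
        · exact (summable_geometric_of_lt_one hr.le (by linarith)).mul_left _
        · intro j
          rw [norm_mul, norm_pow, Complex.norm_real, Real.norm_of_nonneg hr.le]
          gcongr
          exact hC j
      rw [← hs.sum_add_tsum_nat_add k] at h1
      have h2 : ∑ i ∈ Finset.range k, c i * (r : ℂ) ^ i = 0 := by
        apply Finset.sum_eq_zero
        intro i hi
        rw [ih i (Finset.mem_range.mp hi), zero_mul]
      rw [h2, zero_add] at h1
      have h3 : (r : ℂ) ^ k * ∑' i, c (i + k) * (r : ℂ) ^ i = 0 := by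
        rw [← tsum_mul_left, ← h1]
        congr 1; ext i; rw [pow_add]; ring
      have hrk : (r : ℂ) ^ k ≠ 0 := pow_ne_zero _ (by exact_mod_cast hr.ne')
      have h4 := (mul_eq_zero.mp h3).resolve_left hrk
      have hs' : Summable fun i => c (i + k) * (r : ℂ) ^ i := by
        apply Summable.of_norm_bounded (g := fun j => C * r ^ j)
        · exact (summable_geometric_of_lt_one hr.le (by linarith)).mul_left _
        · intro j
          rw [norm_mul, norm_pow, Complex.norm_real, Real.norm_of_nonneg hr.le]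
          gcongr
          exact hC _
      rw [hs'.tsum_eq_zero_add] at h4
      have h5 : c k = -∑' i, c (i + 1 + k) * (r : ℂ) ^ (i + 1) := by
        have : c (0 + k) * (r : ℂ) ^ 0 = c k := by simp
        rw [this] at h4
        exact eq_neg_of_add_eq_zero_left h4
      rw [h5, norm_neg]
      have h6 : HasSum (fun i : ℕ => C * r * r ^ i) (C * r * (1 - r)⁻¹) :=
        (hasSum_geometric_of_lt_one hr.le (by linarith)).mul_left _
      calc ‖∑' i, c (i + 1 + k) * (r : ℂ) ^ (i + 1)‖ ≤ C * r * (1 - r)⁻¹ := by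
            apply tsum_of_norm_bounded h6
            intro i
            rw [norm_mul, norm_pow, Complex.norm_real, Real.norm_of_nonneg hr.le]
            calc ‖c (i + 1 + k)‖ * r ^ (i + 1) ≤ C * r ^ (i + 1) := by
                  gcongr
                  exact hC _
              _ = C * r * r ^ i := by ring
        _ ≤ C * r * 2 := by
            gcongr
            rw [inv_le_comm₀ (by linarith) (by norm_num)]
            linarith
        _ = 2 * C * r := by ring
    by_contra hne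
    have hpos : 0 < ‖c k‖ := norm_pos_iff.mpr hne
    have hCpos : 0 < C := lt_of_lt_of_le hpos (hC k)
    have h7 := key (min (1/2) (‖c k‖ / (4 * C))) (by positivity) (min_le_left _ _)
    have h8 : 2 * C * min (1/2) (‖c k‖ / (4 * C)) ≤ 2 * C * (‖c k‖ / (4 * C)) := by
      gcongr
      exact min_le_right _ _
    have h9 : 2 * C * (‖c k‖ / (4 * C)) = ‖c k‖ / 2 := by
      field_simp; norm_num
    linarith

theorem ev_inj {f : H2} (h : ∀ z w : ℂ, ‖z‖ < 1 → ‖w‖ < 1 → ev f z w = 0) : f = 0 := by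
  have hb : ∀ p, ‖f p‖ ≤ ‖f‖ := fun p => lp.norm_apply_le_norm (by norm_num) f p
  have hrow : ∀ w : ℂ, ‖w‖ < 1 → ∀ k, ∑' l, f (k, l) * w ^ l = 0 := by
    intro w hw
    apply coeff_zero (C := ‖f‖ * (1 - ‖w‖)⁻¹)
    · intro k
      apply tsum_of_norm_bounded
        ((hasSum_geometric_of_lt_one (norm_nonneg w) hw).mul_left ‖f‖)
      intro l
      rw [norm_mul, norm_pow]
      gcongr
      exact hb _
    · intro z hz
      have h1 := h z w hz hw
      unfold ev at h1
      rw [(ev_summable f hz hw).tsum_prod] at h1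
      rw [← h1]
      congr 1; ext k
      rw [← tsum_mul_right]
      congr 1; ext l; ring
  ext ⟨k, l⟩
  have := coeff_zero (c := fun l => f (k, l)) (C := ‖f‖) (fun l => hb _)
    (fun w hw => hrow w hw k) l
  simpa using this

end Pool.Agent.Q250.NR
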