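import Pool.Agent.Q250.NR.Alg

set_option linter.unusedSimpArgs false
set_option linter.unusedSectionVars false

namespace Pool.Agent.Q250.NR

open ContinuousLinearMap
open scoped InnerProductSpace

variable {H : Type*} [NormedAddCommGroup H] [InnerProductSpace ℂ H] [CompleteSpace H]

theorem inner_star (A : H →L[ℂ] H) (x y : H) : ⟪x, A y⟫_ℂ = ⟪(star A) x, y⟫_ℂ := by
  rw [ContinuousLinearMap.star_eq_adjoint, ContinuousLinearMap.adjoint_inner_left]

theorem inner_AA (A : H →L[ℂ] H) (y : H) : ⟪y, (A * star A) y⟫_ℂ = ((‖(star A) y‖ ^ 2 : ℝ) : ℂ) := by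
  rw [ContinuousLinearMap.mul_apply, inner_star, inner_self_eq_norm_sq_to_K]
  push_cast
  rfl

namespace Dat

variable {Z W R : H →L[ℂ] H}

theorem N1 (d : Dat Z W R) (y : H) : ‖y‖ ^ 2 = ‖(star (Th Z W R)) y‖ ^ 2
    + ‖(star (A1 Z W R)) y‖ ^ 2 + (5 * ‖(star (C1 Z W R)) y‖ ^ 2 + ‖(star (C2 Z W R)) y‖ ^ 2) := by
  have h := d.main_id
  have h1 : y = (Th Z W R * star (Th Z W R)) y + (Q Z W R + G Z W R) y := by
    rw [← h]; simp
  have h2 : ⟪y, y⟫_ℂ = ⟪y, (Th Z W R * star (Th Z W R)) y + (Q Z W R + G Z W R) y⟫_ℂ := by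
    rw [← h1]
  unfold Q G at h2
  rw [inner_self_eq_norm_sq_to_K] at h2
  simp only [ContinuousLinearMap.add_apply, ContinuousLinearMap.smul_apply, inner_add_right,
    inner_smul_right, inner_AA] at h2
  have h3 : ((‖y‖ ^ 2 : ℝ) : ℂ) = ((‖(star (Th Z W R)) y‖ ^ 2
    + (‖(star (A1 Z W R)) y‖ ^ 2 + (5 * ‖(star (C1 Z W R)) y‖ ^ 2 + ‖(star (C2 Z W R)) y‖ ^ 2)) : ℝ) : ℂ) := by
    push_cast
    push_cast at h2
    exact h2
  have h4 := Complex.ofReal_injective h3
  rw [h4]; ring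

theorem inner_G (y : H) : ⟪y, (G Z W R) y⟫_ℂ
    = ((5 * ‖(star (C1 Z W R)) y‖ ^ 2 + ‖(star (C2 Z W R)) y‖ ^ 2 : ℝ) : ℂ) := by
  unfold G
  simp only [ContinuousLinearMap.add_apply, ContinuousLinearMap.smul_apply, inner_add_right,
    inner_smul_right, inner_AA]
  push_cast
  ring

theorem inner_Q (y : H) : ⟪y, (Q Z W R) y⟫_ℂ = ((‖(star (A1 Z W R)) y‖ ^ 2 : ℝ) : ℂ) := by
  unfold Q
  rw [inner_AA]

theorem A1_EW (d : Dat Z W R) : A1 Z W R * E W = A1 Z W R := by
  unfold A1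
  rw [mul_assoc, mul_assoc, d.EW_idem]

theorem QA1 (d : Dat Z W R) : Q Z W R * A1 Z W R = A1 Z W R := by
  unfold Q
  rw [mul_assoc, d.A1_isom, d.A1_EW]

theorem QQ (d : Dat Z W R) : Q Z W R * Q Z W R = Q Z W R := by
  have e : Q Z W R * Q Z W R = (Q Z W R * A1 Z W R) * star (A1 Z W R) := by
    rw [mul_assoc]; rfl
  rw [e, d.QA1]
  rfl

theorem Q_star : star (Q Z W R) = Q Z W R := by unfold Q; simp [star_mul]

theorem G_star : star (G Z W R) = G Z W R := by
  unfold G; simp [star_mul, star_add, star_smul]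

theorem of_Q (d : Dat Z W R) {y : H} (hy : (Q Z W R) y = y) :
    (star (Th Z W R)) y = 0 ∧ (star (C1 Z W R)) y = 0 ∧ (star (C2 Z W R)) y = 0 := by
  have h1 := d.N1 y
  have h2 : ((‖y‖ ^ 2 : ℝ) : ℂ) = ((‖(star (A1 Z W R)) y‖ ^ 2 : ℝ) : ℂ) := by
    rw [← inner_Q (Z := Z) (W := W) (R := R), hy, inner_self_eq_norm_sq_to_K]; push_cast; rfl
  have h3 := Complex.ofReal_injective h2
  rw [h3] at h1
  have a := sq_nonneg ‖(star (Th Z W R)) y‖
  have b := sq_nonneg ‖(star (C1 Z W R)) y‖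
  have c := sq_nonneg ‖(star (C2 Z W R)) y‖
  refine ⟨?_, ?_, ?_⟩
  · have : ‖(star (Th Z W R)) y‖ ^ 2 = 0 := by linarith
    simpa using this
  · have : ‖(star (C1 Z W R)) y‖ ^ 2 = 0 := by linarith
    simpa using this
  · have : ‖(star (C2 Z W R)) y‖ ^ 2 = 0 := by linarith
    simpa using this

theorem of_G (d : Dat Z W R) {y : H} (hy : (G Z W R) y = y) :
    (star (Th Z W R)) y = 0 ∧ (star (A1 Z W R)) y = 0
      ∧ ‖y‖ ^ 2 = 5 * ‖(star (C1 Z W R)) y‖ ^ 2 + ‖(star (C2 Z W R)) y‖ ^ 2 := by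
  have h1 := d.N1 y
  have h2 : ((‖y‖ ^ 2 : ℝ) : ℂ)
      = ((5 * ‖(star (C1 Z W R)) y‖ ^ 2 + ‖(star (C2 Z W R)) y‖ ^ 2 : ℝ) : ℂ) := by
    rw [← inner_G (Z := Z) (W := W) (R := R), hy, inner_self_eq_norm_sq_to_K]; push_cast; rfl
  have h3 := Complex.ofReal_injective h2
  have a := sq_nonneg ‖(star (Th Z W R)) y‖
  have b := sq_nonneg ‖(star (A1 Z W R)) y‖
  refine ⟨?_, ?_, h3⟩
  · have : ‖(star (Th Z W R)) y‖ ^ 2 = 0 := by linarith
    simpa using this
  · have : ‖(star (A1 Z W R)) y‖ ^ 2 = 0 := by linarith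
    simpa using this

theorem Q_apply_Q (d : Dat Z W R) (y : H) : (Q Z W R) ((Q Z W R) y) = (Q Z W R) y := by
  rw [← ContinuousLinearMap.mul_apply, d.QQ]

theorem C1sQ (d : Dat Z W R) : star (C1 Z W R) * Q Z W R = 0 := by
  ext y
  exact (d.of_Q (d.Q_apply_Q y)).2.1

theorem C2sQ (d : Dat Z W R) : star (C2 Z W R) * Q Z W R = 0 := by
  ext y
  exact (d.of_Q (d.Q_apply_Q y)).2.2

theorem GQ (d : Dat Z W R) : G Z W R * Q Z W R = 0 := by
  unfold G
  rw [add_mul, smul_mul_assoc, mul_assoc, mul_assoc, d.C1sQ, d.C2sQ]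
  simp

theorem QG (d : Dat Z W R) : Q Z W R * G Z W R = 0 := by
  have := congrArg star d.GQ
  rw [star_mul, G_star, Q_star, star_zero] at this
  exact this

theorem GG (d : Dat Z W R) : G Z W R * G Z W R = G Z W R := by
  have h1 := d.main_id
  have h2 : (1 - Th Z W R * star (Th Z W R)) * (1 - Th Z W R * star (Th Z W R))
      = 1 - Th Z W R * star (Th Z W R) := by
    have : Th Z W R * star (Th Z W R) * (Th Z W R * star (Th Z W R))
        = Th Z W R * star (Th Z W R) := by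
      calc Th Z W R * star (Th Z W R) * (Th Z W R * star (Th Z W R))
          = Th Z W R * (star (Th Z W R) * Th Z W R) * star (Th Z W R) := by
            simp only [mul_assoc]
        _ = _ := by rw [d.ThTh, mul_one]
    rw [mul_sub, sub_mul, sub_mul, this]
    simp
  rw [h1] at h2
  simp only [mul_add, add_mul, d.QQ, d.GQ, d.QG, zero_add, add_zero] at h2
  exact add_left_cancel h2

theorem G_apply_G (d : Dat Z W R) (y : H) : (G Z W R) ((G Z W R) y) = (G Z W R) y := by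
  rw [← ContinuousLinearMap.mul_apply, d.GG]

theorem Cs_one_sub_G (d : Dat Z W R) : star (C1 Z W R) * (1 - G Z W R) = 0 ∧
    star (C2 Z W R) * (1 - G Z W R) = 0 := by
  have key : ∀ y : H, (star (C1 Z W R)) ((1 - G Z W R) y) = 0 ∧
      (star (C2 Z W R)) ((1 - G Z W R) y) = 0 := by
    intro y
    have h0 : (G Z W R) ((1 - G Z W R) y) = 0 := by
      rw [← ContinuousLinearMap.mul_apply, mul_sub, d.GG]; simp
    have h1 := inner_G (Z := Z) (W := W) (R := R) ((1 - G Z W R) y)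
    rw [h0, inner_zero_right] at h1
    have h2 : (0 : ℝ) = 5 * ‖(star (C1 Z W R)) ((1 - G Z W R) y)‖ ^ 2
        + ‖(star (C2 Z W R)) ((1 - G Z W R) y)‖ ^ 2 := by
      apply Complex.ofReal_injective
      rw [← h1]; simp
    have b := sq_nonneg ‖(star (C1 Z W R)) ((1 - G Z W R) y)‖
    have c := sq_nonneg ‖(star (C2 Z W R)) ((1 - G Z W R) y)‖
    constructor
    · have : ‖(star (C1 Z W R)) ((1 - G Z W R) y)‖ ^ 2 = 0 := by linarith
      simpa using this
    · have : ‖(star (C2 Z W R)) ((1 - G Z W R) y)‖ ^ 2 = 0 := by linarith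
      simpa using this
  constructor
  · ext y; exact (key y).1
  · ext y; exact (key y).2

theorem GC1 (d : Dat Z W R) : G Z W R * C1 Z W R = C1 Z W R := by
  have h := congrArg star d.Cs_one_sub_G.1
  rw [star_mul, star_star, star_sub, G_star, star_one, star_zero, sub_mul, one_mul] at h
  exact (sub_eq_zero.mp h).symm

theorem GC2 (d : Dat Z W R) : G Z W R * C2 Z W R = C2 Z W R := by
  have h := congrArg star d.Cs_one_sub_G.2
  rw [star_mul, star_star, star_sub, G_star, star_one, star_zero, sub_mul, one_mul] at h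
  exact (sub_eq_zero.mp h).symm

/-! ### commutation -/

theorem ZA1 (d : Dat Z W R) : Z * A1 Z W R = A1 Z W R * Z := by
  have h := d.toShiftPair
  unfold A1
  rw [← mul_assoc, ← d.RZ, mul_assoc, mul_assoc]
  congr 1
  unfold a0 E
  (simp only [star_add, star_sub, star_mul, star_smul, star_one, star_star, mul_add, add_mul, mul_sub, sub_mul, mul_assoc, smul_mul_assoc, mul_smul_comm, mul_one, one_mul, ShiftPair.hZ h, ShiftPair.hW h, ShiftPair.hc h, ShiftPair.hd h, ShiftPair.hc' h, ShiftPair.hd' h, ShiftPair.hZa h, ShiftPair.hWa h, ShiftPair.hca h, ShiftPair.hda h, ShiftPair.hca' h, ShiftPair.hda' h, Complex.star_def, map_ofNat]; try module)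

theorem WC1 (d : Dat Z W R) : W * C1 Z W R = C1 Z W R * W := by
  have h := d.toShiftPair
  unfold C1
  rw [← mul_assoc, ← d.RW, mul_assoc, mul_assoc]
  congr 1
  unfold a1 E
  (simp only [star_add, star_sub, star_mul, star_smul, star_one, star_star, mul_add, add_mul, mul_sub, sub_mul, mul_assoc, smul_mul_assoc, mul_smul_comm, mul_one, one_mul, ShiftPair.hZ h, ShiftPair.hW h, ShiftPair.hc h, ShiftPair.hd h, ShiftPair.hc' h, ShiftPair.hd' h, ShiftPair.hZa h, ShiftPair.hWa h, ShiftPair.hca h, ShiftPair.hda h, ShiftPair.hca' h, ShiftPair.hda' h, Complex.star_def, map_ofNat]; try module)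

theorem WC2 (d : Dat Z W R) : W * C2 Z W R = C2 Z W R * W := by
  have h := d.toShiftPair
  unfold C2
  rw [← mul_assoc, ← d.RW, mul_assoc, mul_assoc]
  congr 1
  unfold a2 E
  (simp only [star_add, star_sub, star_mul, star_smul, star_one, star_star, mul_add, add_mul, mul_sub, sub_mul, mul_assoc, smul_mul_assoc, mul_smul_comm, mul_one, one_mul, ShiftPair.hZ h, ShiftPair.hW h, ShiftPair.hc h, ShiftPair.hd h, ShiftPair.hc' h, ShiftPair.hd' h, ShiftPair.hZa h, ShiftPair.hWa h, ShiftPair.hca h, ShiftPair.hda h, ShiftPair.hca' h, ShiftPair.hda' h, Complex.star_def, map_ofNat]; try module)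

theorem C1_EZ (d : Dat Z W R) : C1 Z W R * E Z = C1 Z W R := by
  unfold C1
  rw [mul_assoc, mul_assoc, d.EZ_idem]

theorem C2_EZ (d : Dat Z W R) : C2 Z W R * E Z = C2 Z W R := by
  unfold C2
  rw [mul_assoc, mul_assoc, d.EZ_idem]

theorem EZ_C1s (d : Dat Z W R) : E Z * star (C1 Z W R) = star (C1 Z W R) := by
  have := congrArg star d.C1_EZ
  rwa [star_mul, E_star] at this

theorem EZ_C2s (d : Dat Z W R) : E Z * star (C2 Z W R) = star (C2 Z W R) := by
  have := congrArg star d.C2_EZ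
  rwa [star_mul, E_star] at this

theorem J1 (d : Dat Z W R) : Z * C1 Z W R
    = C1 Z W R + (C2 Z W R * star W + A1 Z W R * E Z) - E Z := by
  have h := d.toShiftPair
  have e1 : Z * (a1 Z W * E Z) = a1 Z W * E Z + (a2 Z W * E Z * star W + a0 Z * E W * E Z)
      - P Z W * E Z := by
    unfold a1 a2 a0 P E
    (simp only [star_add, star_sub, star_mul, star_smul, star_one, star_star, mul_add, add_mul, mul_sub, sub_mul, mul_assoc, smul_mul_assoc, mul_smul_comm, mul_one, one_mul, ShiftPair.hZ h, ShiftPair.hW h, ShiftPair.hc h, ShiftPair.hd h, ShiftPair.hc' h, ShiftPair.hd' h, ShiftPair.hZa h, ShiftPair.hWa h, ShiftPair.hca h, ShiftPair.hda h, ShiftPair.hca' h, ShiftPair.hda' h, Complex.star_def, map_ofNat]; try module)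
  calc Z * C1 Z W R = R * (Z * (a1 Z W * E Z)) := by
        unfold C1; rw [← mul_assoc, ← d.RZ, mul_assoc]
    _ = R * (a1 Z W * E Z + (a2 Z W * E Z * star W + a0 Z * E W * E Z) - P Z W * E Z) := by
        rw [e1]
    _ = _ := by
        unfold C1 C2 A1
        simp only [mul_add, mul_sub, ← mul_assoc, d.RP, one_mul]

theorem J2 (d : Dat Z W R) : Z * C2 Z W R
    = (5/2 : ℂ) • C1 Z W R - (1/2 : ℂ) • E Z := by
  have h := d.toShiftPair
  have e1 : Z * (a2 Z W * E Z) = (5/2 : ℂ) • (a1 Z W * E Z) - (1/2 : ℂ) • (P Z W * E Z) := by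
    unfold a1 a2 P E
    (simp only [star_add, star_sub, star_mul, star_smul, star_one, star_star, mul_add, add_mul, mul_sub, sub_mul, mul_assoc, smul_mul_assoc, mul_smul_comm, mul_one, one_mul, ShiftPair.hZ h, ShiftPair.hW h, ShiftPair.hc h, ShiftPair.hd h, ShiftPair.hc' h, ShiftPair.hd' h, ShiftPair.hZa h, ShiftPair.hWa h, ShiftPair.hca h, ShiftPair.hda h, ShiftPair.hca' h, ShiftPair.hda' h, Complex.star_def, map_ofNat]; try module)
  calc Z * C2 Z W R = R * (Z * (a2 Z W * E Z)) := by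
        unfold C2; rw [← mul_assoc, ← d.RZ, mul_assoc]
    _ = R * ((5/2 : ℂ) • (a1 Z W * E Z) - (1/2 : ℂ) • (P Z W * E Z)) := by
        rw [e1]
    _ = _ := by
        unfold C1
        simp only [mul_sub, mul_smul_comm, ← mul_assoc, d.RP, one_mul]

theorem RsE (d : Dat Z W R) : star R * E Z = (1/5 : ℂ) • E Z := by
  have h := d.toShiftPair
  have e1 : star (P Z W) * E Z = (5 : ℂ) • E Z := by
    unfold P E
    (simp only [star_add, star_sub, star_mul, star_smul, star_one, star_star, mul_add, add_mul, mul_sub, sub_mul, mul_assoc, smul_mul_assoc, mul_smul_comm, mul_one, one_mul, ShiftPair.hZ h, ShiftPair.hW h, ShiftPair.hc h, ShiftPair.hd h, ShiftPair.hc' h, ShiftPair.hd' h, ShiftPair.hZa h, ShiftPair.hWa h, ShiftPair.hca h, ShiftPair.hda h, ShiftPair.hca' h, ShiftPair.hda' h, Complex.star_def, map_ofNat]; try module)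
  have e2 : star R * star (P Z W) = 1 := by
    rw [← star_mul, d.PR, star_one]
  calc star R * E Z = (1/5 : ℂ) • (star R * ((5 : ℂ) • E Z)) := by
        rw [mul_smul_comm, smul_smul]; norm_num
    _ = (1/5 : ℂ) • (star R * star (P Z W) * E Z) := by rw [← e1, mul_assoc]
    _ = _ := by rw [e2, one_mul]

theorem C1sE (d : Dat Z W R) : star (C1 Z W R) * E Z = (1/5 : ℂ) • E Z := by
  have h := d.toShiftPair
  have e1 : E Z * star (a1 Z W) * E Z = E Z := by
    unfold a1 E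
    (simp only [star_add, star_sub, star_mul, star_smul, star_one, star_star, mul_add, add_mul, mul_sub, sub_mul, mul_assoc, smul_mul_assoc, mul_smul_comm, mul_one, one_mul, ShiftPair.hZ h, ShiftPair.hW h, ShiftPair.hc h, ShiftPair.hd h, ShiftPair.hc' h, ShiftPair.hd' h, ShiftPair.hZa h, ShiftPair.hWa h, ShiftPair.hca h, ShiftPair.hda h, ShiftPair.hca' h, ShiftPair.hda' h, Complex.star_def, map_ofNat]; try module)
  unfold C1
  rw [star_mul, star_mul, E_star, mul_assoc, mul_assoc, d.RsE, mul_smul_comm, mul_smul_comm,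
    ← mul_assoc, e1]

theorem C2sE (d : Dat Z W R) : star (C2 Z W R) * E Z = (4/5 : ℂ) • (star W * E Z) := by
  have h := d.toShiftPair
  have e1 : E Z * star (a2 Z W) * E Z = (4 : ℂ) • (star W * E Z) := by
    unfold a2 E
    (simp only [star_add, star_sub, star_mul, star_smul, star_one, star_star, mul_add, add_mul, mul_sub, sub_mul, mul_assoc, smul_mul_assoc, mul_smul_comm, mul_one, one_mul, ShiftPair.hZ h, ShiftPair.hW h, ShiftPair.hc h, ShiftPair.hd h, ShiftPair.hc' h, ShiftPair.hd' h, ShiftPair.hZa h, ShiftPair.hWa h, ShiftPair.hca h, ShiftPair.hda h, ShiftPair.hca' h, ShiftPair.hda' h, Complex.star_def, map_ofNat]; try module)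
  unfold C2
  rw [star_mul, star_mul, E_star, mul_assoc, mul_assoc, d.RsE, mul_smul_comm, mul_smul_comm,
    ← mul_assoc, e1, smul_smul]
  norm_num


/-! ### vector computations -/

section vec

theorem app (A B : H →L[ℂ] H) (x : H) : (A * B) x = A (B x) := rfl

theorem EZ_fix_star (d : Dat Z W R) {v : H} (hv : (E Z) v = v) : (star Z) v = 0 := by
  have h := d.toShiftPair
  have e : star Z * E Z = 0 := by unfold E; (simp only [star_add, star_sub, star_mul, star_smul, star_one, star_star, mul_add, add_mul, mul_sub, sub_mul, mul_assoc, smul_mul_assoc, mul_smul_comm, mul_one, one_mul, ShiftPair.hZ h, ShiftPair.hW h, ShiftPair.hc h, ShiftPair.hd h, ShiftPair.hc' h, ShiftPair.hd' h, ShiftPair.hZa h, ShiftPair.hWa h, ShiftPair.hca h, ShiftPair.hda h, ShiftPair.hca' h, ShiftPair.hda' h, Complex.star_def, map_ofNat]; try module)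
  rw [← hv, ← app, e]; simp

theorem EZ_fix_Ws (d : Dat Z W R) {v : H} (hv : (E Z) v = v) :
    (E Z) ((star W) v) = (star W) v := by
  have h := d.toShiftPair
  have e : E Z * star W = star W * E Z := by unfold E; (simp only [star_add, star_sub, star_mul, star_smul, star_one, star_star, mul_add, add_mul, mul_sub, sub_mul, mul_assoc, smul_mul_assoc, mul_smul_comm, mul_one, one_mul, ShiftPair.hZ h, ShiftPair.hW h, ShiftPair.hc h, ShiftPair.hd h, ShiftPair.hc' h, ShiftPair.hd' h, ShiftPair.hZa h, ShiftPair.hWa h, ShiftPair.hca h, ShiftPair.hda h, ShiftPair.hca' h, ShiftPair.hda' h, Complex.star_def, map_ofNat]; try module)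
  rw [← app, e, app, hv]

theorem EZ_fix_W (d : Dat Z W R) {v : H} (hv : (E Z) v = v) :
    (E Z) (W v) = W v := by
  have h := d.toShiftPair
  have e : E Z * W = W * E Z := by unfold E; (simp only [star_add, star_sub, star_mul, star_smul, star_one, star_star, mul_add, add_mul, mul_sub, sub_mul, mul_assoc, smul_mul_assoc, mul_smul_comm, mul_one, one_mul, ShiftPair.hZ h, ShiftPair.hW h, ShiftPair.hc h, ShiftPair.hd h, ShiftPair.hc' h, ShiftPair.hd' h, ShiftPair.hZa h, ShiftPair.hWa h, ShiftPair.hca h, ShiftPair.hda h, ShiftPair.hca' h, ShiftPair.hda' h, Complex.star_def, map_ofNat]; try module)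
  rw [← app, e, app, hv]

theorem G_expand (x : H) : (G Z W R) x
    = (5 : ℂ) • (C1 Z W R) ((star (C1 Z W R)) x) + (C2 Z W R) ((star (C2 Z W R)) x) := rfl

/-- the inner product formula -/
theorem inner_Z (d : Dat Z W R) {x : H} (hx : (G Z W R) x = x) :
    ⟪x, Z x⟫_ℂ = ⟪(star (C2 Z W R)) x, (star W) ((star (C1 Z W R)) x)⟫_ℂ
      + 2 * ⟪(star (C1 Z W R)) x, (star (C2 Z W R)) x⟫_ℂ
      - (2/5) * ⟪(star (C2 Z W R)) x, (star W) ((star (C2 Z W R)) x)⟫_ℂ := by
  set u1 := (star (C1 Z W R)) x with hu1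
  set u2 := (star (C2 Z W R)) x with hu2
  have E1 : (E Z) u1 = u1 := by rw [hu1, ← app, d.EZ_C1s]
  have E2 : (E Z) u2 = u2 := by rw [hu2, ← app, d.EZ_C2s]
  have hx' : x = (5 : ℂ) • (C1 Z W R) u1 + (C2 Z W R) u2 := by
    conv_lhs => rw [← hx, G_expand]
  have c1 : ∀ v : H, ⟪x, (C1 Z W R) v⟫_ℂ = ⟪u1, v⟫_ℂ := fun v => inner_star _ _ _
  have c2 : ∀ v : H, ⟪x, (C2 Z W R) v⟫_ℂ = ⟪u2, v⟫_ℂ := fun v => inner_star _ _ _
  have ca : ∀ v : H, ⟪x, (A1 Z W R) v⟫_ℂ = 0 := fun v => by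
    rw [inner_star, (d.of_G hx).2.1, inner_zero_left]
  have cv : ∀ v : H, (E Z) v = v → ⟪x, v⟫_ℂ = ⟪u1, v⟫_ℂ + (4/5) * ⟪u2, (star W) v⟫_ℂ := by
    intro v hv
    have f1 : (star (C1 Z W R)) v = (1/5 : ℂ) • v := by
      conv_lhs => rw [← hv]
      rw [← app, d.C1sE, smul_apply, hv]
    have f2 : (star (C2 Z W R)) v = (4/5 : ℂ) • (star W) v := by
      conv_lhs => rw [← hv]
      rw [← app, d.C2sE, smul_apply, app, hv]
    conv_lhs => rw [hx']
    rw [inner_add_left, inner_smul_left]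
    have g1 : ⟪(C1 Z W R) u1, v⟫_ℂ = ⟪u1, (star (C1 Z W R)) v⟫_ℂ := by
      rw [inner_star (star (C1 Z W R)), star_star]
    have g2 : ⟪(C2 Z W R) u2, v⟫_ℂ = ⟪u2, (star (C2 Z W R)) v⟫_ℂ := by
      rw [inner_star (star (C2 Z W R)), star_star]
    rw [g1, g2, f1, f2, inner_smul_right, inner_smul_right]
    simp only [map_ofNat]
    ring
  have z1 : Z ((C1 Z W R) u1) = (C1 Z W R) u1 + ((C2 Z W R) ((star W) u1) + (A1 Z W R) u1) - u1 := by
    rw [← app, d.J1]
    simp only [sub_apply, add_apply, app, E1]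
  have z2 : Z ((C2 Z W R) u2) = (5/2 : ℂ) • (C1 Z W R) u2 - (1/2 : ℂ) • u2 := by
    rw [← app, d.J2]
    simp only [sub_apply, smul_apply, app, E2]
  have hZx : Z x = (5 : ℂ) • ((C1 Z W R) u1 + ((C2 Z W R) ((star W) u1) + (A1 Z W R) u1) - u1)
      + ((5/2 : ℂ) • (C1 Z W R) u2 - (1/2 : ℂ) • u2) := by
    conv_lhs => rw [hx']
    rw [map_add, map_smul, z1, z2]
  rw [hZx]
  simp only [inner_add_right, inner_sub_right, inner_smul_right, c1, c2, ca]
  rw [cv u1 E1, cv u2 E2]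
  ring

theorem norm_W (h : ShiftPair Z W) (v : H) : ‖W v‖ = ‖v‖ := by
  have : ⟪W v, W v⟫_ℂ = ⟪v, v⟫_ℂ := by
    rw [inner_star W (W v) v, ← app, h.hW]; rfl
  rw [inner_self_eq_norm_sq_to_K, inner_self_eq_norm_sq_to_K] at this
  have h2 : ‖W v‖ ^ 2 = ‖v‖ ^ 2 := by exact_mod_cast this
  nlinarith [norm_nonneg (W v), norm_nonneg v]

theorem re_formula (d : Dat Z W R) {x : H} (hx : (G Z W R) x = x) :
    (⟪x, Z x⟫_ℂ).re = (1/2) * ‖x‖ ^ 2 - (5/2) * ‖(star (C1 Z W R)) x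
      - (1/5 : ℂ) • ((2 : ℂ) • (star (C2 Z W R)) x + W ((star (C2 Z W R)) x))‖ ^ 2 := by
  rw [d.inner_Z hx, (d.of_G hx).2.2]
  set u1 := (star (C1 Z W R)) x with hu1
  set u2 := (star (C2 Z W R)) x with hu2
  have hn : ‖W u2‖ ^ 2 = ‖u2‖ ^ 2 := by rw [norm_W d.toShiftPair]
  have e1 : ‖u1 - (1/5 : ℂ) • ((2 : ℂ) • u2 + W u2)‖ ^ 2
      = ‖u1‖ ^ 2 - 2 * (⟪u1, (1/5 : ℂ) • ((2 : ℂ) • u2 + W u2)⟫_ℂ).re
        + ‖(1/5 : ℂ) • ((2 : ℂ) • u2 + W u2)‖ ^ 2 := by
    rw [@norm_sub_sq ℂ]; rfl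
  have e2 : ‖(1/5 : ℂ) • ((2 : ℂ) • u2 + W u2)‖ ^ 2
      = (1/25) * (‖(2 : ℂ) • u2‖ ^ 2 + 2 * (⟪(2 : ℂ) • u2, W u2⟫_ℂ).re + ‖W u2‖ ^ 2) := by
    have h15 : ‖(1/5 : ℂ)‖ ^ 2 = 1/25 := by norm_num
    rw [norm_smul, mul_pow, @norm_add_sq ℂ, h15]
    rfl
  have e3 : ‖(2 : ℂ) • u2‖ ^ 2 = 4 * ‖u2‖ ^ 2 := by
    rw [norm_smul, mul_pow]; norm_num
  have e4 : (⟪(2 : ℂ) • u2, W u2⟫_ℂ).re = 2 * (⟪u2, W u2⟫_ℂ).re := by
    have h2 : (starRingEnd ℂ) (2 : ℂ) = ((2 : ℝ) : ℂ) := by rw [map_ofNat]; push_cast; rfl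
    rw [inner_smul_left, h2, Complex.re_ofReal_mul]
  have e5 : (⟪u1, (1/5 : ℂ) • ((2 : ℂ) • u2 + W u2)⟫_ℂ).re
      = (1/5) * (2 * (⟪u1, u2⟫_ℂ).re + (⟪u1, W u2⟫_ℂ).re) := by
    rw [inner_smul_right, inner_add_right, inner_smul_right]
    have : (1/5 : ℂ) = ((1/5 : ℝ) : ℂ) := by push_cast; rfl
    rw [this, Complex.re_ofReal_mul, Complex.add_re]
    have h2 : (2 : ℂ) = ((2 : ℝ) : ℂ) := by push_cast; rfl
    rw [h2, Complex.re_ofReal_mul]
  have e6 : (⟪u2, (star W) u1⟫_ℂ).re = (⟪u1, W u2⟫_ℂ).re := by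
    rw [inner_star (star W) u2 u1, star_star, ← inner_conj_symm, Complex.conj_re]
  have e7 : (⟪u2, (star W) u2⟫_ℂ).re = (⟪u2, W u2⟫_ℂ).re := by
    rw [inner_star (star W) u2 u2, star_star, ← inner_conj_symm, Complex.conj_re]
  rw [e1, e2, e3, e4, e5, hn]
  have h2 : (2 : ℂ) = ((2 : ℝ) : ℂ) := by push_cast; rfl
  have h25 : (2/5 : ℂ) = ((2/5 : ℝ) : ℂ) := by push_cast; rfl
  rw [Complex.sub_re, Complex.add_re, h25, h2, Complex.re_ofReal_mul, Complex.re_ofReal_mul, e6, e7]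
  ring

theorem inj (d : Dat Z W R) {d1 d2 : H} (h1 : (E Z) d1 = d1) (h2 : (E Z) d2 = d2)
    (h0 : (5 : ℂ) • (C1 Z W R) d1 + (C2 Z W R) d2 = 0) : d1 = 0 ∧ d2 = 0 := by
  have h := d.toShiftPair
  have p1 : P Z W * C1 Z W R = a1 Z W * E Z := by
    unfold C1; rw [← mul_assoc, d.PR, one_mul]
  have p2 : P Z W * C2 Z W R = a2 Z W * E Z := by
    unfold C2; rw [← mul_assoc, d.PR, one_mul]
  have k0 : (5 : ℂ) • (a1 Z W) d1 + (a2 Z W) d2 = 0 := by
    have := congrArg (P Z W) h0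
    rw [map_add, map_smul, map_zero, ← app, ← app, p1, p2, app, app, h1, h2] at this
    exact this
  have s1 := d.EZ_fix_star h1
  have s2 := d.EZ_fix_star h2
  have k1 : (5 : ℂ) • d1 + (4 : ℂ) • W d2 = 0 := by
    have e1 : E Z * a1 Z W = E Z := by unfold a1 E; (simp only [star_add, star_sub, star_mul, star_smul, star_one, star_star, mul_add, add_mul, mul_sub, sub_mul, mul_assoc, smul_mul_assoc, mul_smul_comm, mul_one, one_mul, ShiftPair.hZ h, ShiftPair.hW h, ShiftPair.hc h, ShiftPair.hd h, ShiftPair.hc' h, ShiftPair.hd' h, ShiftPair.hZa h, ShiftPair.hWa h, ShiftPair.hca h, ShiftPair.hda h, ShiftPair.hca' h, ShiftPair.hda' h, Complex.star_def, map_ofNat]; try module)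
    have e2 : E Z * a2 Z W = (4 : ℂ) • (W * E Z) := by unfold a2 E; (simp only [star_add, star_sub, star_mul, star_smul, star_one, star_star, mul_add, add_mul, mul_sub, sub_mul, mul_assoc, smul_mul_assoc, mul_smul_comm, mul_one, one_mul, ShiftPair.hZ h, ShiftPair.hW h, ShiftPair.hc h, ShiftPair.hd h, ShiftPair.hc' h, ShiftPair.hd' h, ShiftPair.hZa h, ShiftPair.hWa h, ShiftPair.hca h, ShiftPair.hda h, ShiftPair.hca' h, ShiftPair.hda' h, Complex.star_def, map_ofNat]; try module)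
    have := congrArg (E Z) k0
    rw [map_add, map_smul, map_zero, ← app, ← app, e1, e2, smul_apply, app, h1, h2] at this
    exact this
  have k2 : (10 : ℂ) • d1 + d2 = 0 := by
    have e1 : star W * (star Z * a1 Z W) = star W * star Z + (2 : ℂ) • 1 := by
      unfold a1; (simp only [star_add, star_sub, star_mul, star_smul, star_one, star_star, mul_add, add_mul, mul_sub, sub_mul, mul_assoc, smul_mul_assoc, mul_smul_comm, mul_one, one_mul, ShiftPair.hZ h, ShiftPair.hW h, ShiftPair.hc h, ShiftPair.hd h, ShiftPair.hc' h, ShiftPair.hd' h, ShiftPair.hZa h, ShiftPair.hWa h, ShiftPair.hca h, ShiftPair.hda h, ShiftPair.hca' h, ShiftPair.hda' h, Complex.star_def, map_ofNat]; try module)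
    have e2 : star W * (star Z * a2 Z W) = (4 : ℂ) • star Z + 1 := by
      unfold a2; (simp only [star_add, star_sub, star_mul, star_smul, star_one, star_star, mul_add, add_mul, mul_sub, sub_mul, mul_assoc, smul_mul_assoc, mul_smul_comm, mul_one, one_mul, ShiftPair.hZ h, ShiftPair.hW h, ShiftPair.hc h, ShiftPair.hd h, ShiftPair.hc' h, ShiftPair.hd' h, ShiftPair.hZa h, ShiftPair.hWa h, ShiftPair.hca h, ShiftPair.hda h, ShiftPair.hca' h, ShiftPair.hda' h, Complex.star_def, map_ofNat]; try module)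
    have := congrArg (star W * star Z) k0
    rw [map_add, map_smul, map_zero, ← app, ← app, mul_assoc, mul_assoc, e1, e2] at this
    simp only [add_apply, smul_apply, app, s1, s2, one_apply, map_zero, smul_zero, zero_add,
      smul_smul] at this
    norm_num at this
    exact this
  have k3 : d2 = -((10 : ℂ) • d1) := by
    rw [eq_neg_iff_add_eq_zero, add_comm]; exact k2
  have k4 : (5 : ℂ) • d1 = (40 : ℂ) • W d1 := by
    rw [k3, map_neg, map_smul, smul_neg, smul_smul] at k1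
    norm_num at k1
    rw [← sub_eq_add_neg, sub_eq_zero] at k1
    exact k1
  have k5 : 5 * ‖d1‖ = 40 * ‖d1‖ := by
    have := congrArg norm k4
    rw [norm_smul, norm_smul, norm_W h] at this
    simpa using this
  have k6 : d1 = 0 := by
    have : ‖d1‖ = 0 := by linarith
    simpa using this
  refine ⟨k6, ?_⟩
  rw [k3, k6]; simp

/-- coefficients are recovered -/
theorem coeffs (d : Dat Z W R) {v1 v2 : H} (h1 : (E Z) v1 = v1) (h2 : (E Z) v2 = v2) :
    (G Z W R) ((5 : ℂ) • (C1 Z W R) v1 + (C2 Z W R) v2)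
        = (5 : ℂ) • (C1 Z W R) v1 + (C2 Z W R) v2
    ∧ (star (C1 Z W R)) ((5 : ℂ) • (C1 Z W R) v1 + (C2 Z W R) v2) = v1
    ∧ (star (C2 Z W R)) ((5 : ℂ) • (C1 Z W R) v1 + (C2 Z W R) v2) = v2 := by
  set x := (5 : ℂ) • (C1 Z W R) v1 + (C2 Z W R) v2 with hx
  have hG : (G Z W R) x = x := by
    rw [hx, map_add, map_smul, ← app, ← app, d.GC1, d.GC2]
  set u1 := (star (C1 Z W R)) x with hu1
  set u2 := (star (C2 Z W R)) x with hu2
  have E1 : (E Z) u1 = u1 := by rw [hu1, ← app, d.EZ_C1s]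
  have E2 : (E Z) u2 = u2 := by rw [hu2, ← app, d.EZ_C2s]
  have hx' : x = (5 : ℂ) • (C1 Z W R) u1 + (C2 Z W R) u2 := by
    conv_lhs => rw [← hG, G_expand]
  have h0 : (5 : ℂ) • (C1 Z W R) (u1 - v1) + (C2 Z W R) (u2 - v2) = 0 := by
    have : x - x = 0 := sub_self x
    nth_rewrite 1 [hx'] at this
    rw [hx] at this
    rw [← this, map_sub, map_sub]
    module
  have := d.inj (d1 := u1 - v1) (d2 := u2 - v2) (by rw [map_sub, E1, h1])
    (by rw [map_sub, E2, h2]) h0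
  exact ⟨hG, sub_eq_zero.mp this.1, sub_eq_zero.mp this.2⟩

/-- The extremal vector. -/
theorem exists_extremal (d : Dat Z W R) {e : H} (he : (E Z) e = e) (hne : e ≠ 0) :
    ∃ x : H, (G Z W R) x = x ∧ ‖x‖ = 1 ∧ (⟪x, Z x⟫_ℂ).re = 1/2 := by
  set v1 : H := (1/5 : ℂ) • ((2 : ℂ) • e + W e) with hv1
  have E1 : (E Z) v1 = v1 := by
    rw [hv1, map_smul, map_add, map_smul, he, d.EZ_fix_W he]
  obtain ⟨hG, c1, c2⟩ := d.coeffs E1 he
  set x := (5 : ℂ) • (C1 Z W R) v1 + (C2 Z W R) e with hx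
  have hre := d.re_formula hG
  rw [c1, c2, ← hv1, sub_self] at hre
  have hnorm := (d.of_G hG).2.2
  rw [c1, c2] at hnorm
  have hpos : 0 < ‖x‖ := by
    have : 0 < ‖e‖ := norm_pos_iff.mpr hne
    have h1 : 0 < ‖x‖ ^ 2 := by rw [hnorm]; positivity
    exact lt_of_le_of_ne (norm_nonneg _) (fun h => by rw [← h] at h1; norm_num at h1)
  refine ⟨((‖x‖⁻¹ : ℝ) : ℂ) • x, ?_, ?_, ?_⟩
  · rw [map_smul, hG]
  · rw [norm_smul]
    simp only [Complex.norm_real, norm_inv, norm_norm]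
    field_simp
  · rw [map_smul, inner_smul_left, inner_smul_right, ← mul_assoc, Complex.conj_ofReal,
      ← Complex.ofReal_mul, Complex.re_ofReal_mul, hre]
    simp only [norm_zero]
    field_simp
    ring

theorem re_le (d : Dat Z W R) {x : H} (hx : (G Z W R) x = x) (hn : ‖x‖ = 1) :
    (⟪x, Z x⟫_ℂ).re ≤ 1/2 := by
  rw [d.re_formula hx, hn]
  have := sq_nonneg ‖(star (C1 Z W R)) x
      - (1/5 : ℂ) • ((2 : ℂ) • (star (C2 Z W R)) x + W ((star (C2 Z W R)) x))‖
  linarith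

end vec

end Dat

end Pool.Agent.Q250.NR
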